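import Pool.Agent.AT8.Stmts4
import Pool.Agent.Helper25_AT8.TC8

/-!
# Squad AT8, row RTR, the case of a free inertial quotient
-/

open scoped BigOperators

noncomputable section

namespace Pool.Agent.PP.T8.H4

open Pool.Agent.Helper51_AWC Pool.Agent.Helper79_WRA Pool.Agent.PP Pool.Agent.PP.KF
open Pool.Agent.PP.K9 Pool.Agent.PP.K9.H97 Pool.Agent.PP.H75 Pool.Agent.PP.T3 Pool.Agent.PP.T2
open Pool.Agent.PP.T8.H25

theorem nrm_pow {G : Type} [Group G] {V : Subgroup G} (hab : ∀ a b : V, a * b = b * a)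
    (φ : V →* V) (y : V) (n : ℕ) (h : ∃ v, φ y = y * v ^ n) (i : ℕ) :
    ∃ v, nrm φ y i = y ^ i * v ^ n := by
  have hmp : ∀ a b : V, (a * b) ^ n = a ^ n * b ^ n := fun a b => Commute.mul_pow (hab a b) n
  have h1 : ∀ j, ∃ v, φ^[j] y = y * v ^ n := by
    intro j
    induction j with
    | zero => exact ⟨1, by rw [one_pow, mul_one]; rfl⟩
    | succ j ih =>
      obtain ⟨v, hv⟩ := ih
      obtain ⟨w, hw⟩ := h
      refine ⟨w * φ v, ?_⟩
      rw [Function.iterate_succ_apply', hv, map_mul, map_pow, hw, hmp, mul_assoc]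
  induction i with
  | zero => exact ⟨1, by rw [one_pow, mul_one, pow_zero]; rfl⟩
  | succ i ih =>
    obtain ⟨v, hv⟩ := ih
    obtain ⟨w, hw⟩ := h1 i
    refine ⟨v * w, ?_⟩
    rw [nrm, hv, hw, hmp, pow_succ]
    calc y ^ i * v ^ n * (y * w ^ n) = y ^ i * (v ^ n * y) * w ^ n := by group
      _ = y ^ i * (y * v ^ n) * w ^ n := by rw [hab (v ^ n) y]
      _ = y ^ i * y * (v ^ n * w ^ n) := by group

theorem rtr_free {ℓ : ℕ} [Fact ℓ.Prime] {F : Type} [Field F] {G : Type} [Group G] [Finite G]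
    {e : G → F} {V : Subgroup G} {γ : G → F} (hL : Ld ℓ e V γ) (hix : ¬ ℓ ∣ ix V γ) {a : ℕ}
    (hexp : Monoid.exponent V = ℓ ^ a) (ha : 0 < a) (hfr : Fr V γ) : ∃ y, Rk ℓ a 1 V γ y := by
  have hℓ : ℓ.Prime := Fact.out
  have habV : ∀ a b : V, a * b = b * a := fun a b => Subtype.ext (hL.ab _ a.2 _ b.2)
  obtain ⟨y, hy⟩ := Nat.Prime.exists_orderOf_eq_pow_factorization_exponent V hℓ
  rw [hexp, hℓ.factorization_pow, Finsupp.single_eq_same] at hy
  refine ⟨y, y.2, by rw [Subgroup.orderOf_coe, hy], ?_⟩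
  intro t ht v hv htv
  rw [pow_one] at htv
  have hN : ∀ x : V, t * x * t⁻¹ ∈ V := fun x => (Subgroup.mem_normalizer_iff.1 ht.1 x).1 x.2
  obtain ⟨φ, hφ⟩ : ∃ φ : V →* V, ∀ x : V, (φ x : G) = t * x * t⁻¹ :=
    ⟨{ toFun := fun x => ⟨t * x * t⁻¹, hN x⟩
       map_one' := Subtype.ext (by change t * 1 * t⁻¹ = 1; group)
       map_mul' := fun x y => Subtype.ext (by
        change t * (x * y) * t⁻¹ = t * x * t⁻¹ * (t * y * t⁻¹); group) }, fun x => rfl⟩
  have hit : ∀ (j : ℕ) (x : V), ((φ^[j] x : V) : G) = t ^ j * x * (t ^ j)⁻¹ := by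
    intro j
    induction j with
    | zero => intro x; rw [pow_zero]; change (x : G) = 1 * x * 1⁻¹; group
    | succ j ih =>
      intro x
      rw [Function.iterate_succ_apply', hφ, ih, pow_succ']
      group
  have hm : φ^[ix V γ] y = y := by
    apply Subtype.ext
    rw [hit, ← Subgroup.mem_centralizer_iff.1 (pow_ix ht) y y.2, mul_inv_cancel_right]
  have h1 := nrm_fix habV φ y (ix V γ)
  rw [hm] at h1
  have h2 : φ (nrm φ y (ix V γ)) = nrm φ y (ix V γ) := mul_right_cancel h1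
  obtain ⟨w, hw⟩ := nrm_pow habV φ y ℓ
    ⟨⟨v, hv⟩, Subtype.ext (by rw [hφ, htv]; rfl)⟩ (ix V γ)
  have h3 : nrm φ y (ix V γ) ≠ 1 := by
    intro h4
    rw [h4] at hw
    have h5 : (y ^ ix V γ * w ^ ℓ) ^ ℓ ^ (a - 1) = 1 := by rw [← hw, one_pow]
    rw [Commute.mul_pow (habV _ _), ← pow_mul, ← pow_mul, ← pow_succ', Nat.sub_add_cancel ha,
      ← hexp, Monoid.pow_exponent_eq_one, mul_one] at h5
    have h6 := orderOf_dvd_of_pow_eq_one h5
    rw [hy] at h6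
    apply hix
    have h7 : ℓ ^ (a - 1) * ℓ ∣ ℓ ^ (a - 1) * ix V γ := by
      rw [← pow_succ, Nat.sub_add_cancel ha, mul_comm (ℓ ^ (a - 1))]
      exact h6
    exact (Nat.mul_dvd_mul_iff_left (pow_pos hℓ.pos _)).1 h7
  refine hfr t ht _ (nrm φ y (ix V γ)).2 (fun h4 => h3 (Subtype.ext h4)) ?_
  have h7 := hφ (nrm φ y (ix V γ))
  rw [h2] at h7
  conv_rhs => rw [h7]
  group

end Pool.Agent.PP.T8.H4
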